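import Pool.Agent.W42.RG.Defs2
import Pool.Agent.W215.LX.Iso
import Pool.Agent.W32.LX.SUB

/-!
# Project LY, part LIN: the Mautner phenomenon for eigenvectors
-/

set_option autoImplicit false

open Finset Filter Topology MeasureTheory

namespace Pool.Agent.W403.LY

open Pool.Agent.W42.RG Pool.Agent.W215.LX

/-! ### A variant of the Trotter argument -/

theorem add_fix' {V M : Type} [NormedAddCommGroup V] [NormedSpace ℝ V] [MetricSpace M]
    {br : V →L[ℝ] V →L[ℝ] V} {Φ : V → M → M} (h : Iso br Φ) {p : M} {Y Z : V}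
    (hYZ : ∀ t : ℝ, Φ (t • Y) (Φ (t • Z) p) = p) : Φ (Y + Z) p = p := by
  obtain ⟨C, ρ, hρ, hloc⟩ := h.loc
  obtain ⟨N, hN⟩ : ∃ N : ℕ, ∀ n : ℕ, N ≤ n → ‖(((n : ℝ) + 1)⁻¹) • Y‖ ≤ ρ ∧
      ‖(((n : ℝ) + 1)⁻¹) • Z‖ ≤ ρ := by
    obtain ⟨N, hN⟩ := exists_nat_ge ((‖Y‖ + ‖Z‖) / ρ)
    refine ⟨N, fun n hn => ?_⟩
    have hn' : (N : ℝ) ≤ n := by exact_mod_cast hn
    have hpos : (0 : ℝ) < (n : ℝ) + 1 := by positivity
    have hb : ‖Y‖ + ‖Z‖ ≤ ρ * ((n : ℝ) + 1) := by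
      rw [div_le_iff₀ hρ] at hN
      nlinarith
    refine ⟨?_, ?_⟩
    · rw [norm_smul, norm_inv, Real.norm_of_nonneg hpos.le, inv_mul_le_iff₀ hpos]
      nlinarith [norm_nonneg Z]
    · rw [norm_smul, norm_inv, Real.norm_of_nonneg hpos.le, inv_mul_le_iff₀ hpos]
      nlinarith [norm_nonneg Y]
  have hex : ∀ n : ℕ, ∃ W : V, N ≤ n →
      ‖W - (Y + Z)‖ ≤ C * ‖br Y Z‖ * ((n : ℝ) + 1)⁻¹ ∧ Φ W p = p := by
    intro n
    by_cases hn : N ≤ n
    · obtain ⟨U, hU1, hU2⟩ := hloc _ _ (hN n hn).1 (hN n hn).2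
      have hpos : (0 : ℝ) < (n : ℝ) + 1 := by positivity
      refine ⟨((n : ℝ) + 1) • U, fun _ => ⟨?_, ?_⟩⟩
      · have e1 : ((n : ℝ) + 1) • U - (Y + Z) =
            ((n : ℝ) + 1) • (U - ((n : ℝ) + 1)⁻¹ • Y - ((n : ℝ) + 1)⁻¹ • Z) := by
          rw [smul_sub, smul_sub, smul_smul, smul_smul, mul_inv_cancel₀ hpos.ne', one_smul,
            one_smul]
          abel
        rw [e1, norm_smul, Real.norm_of_nonneg hpos.le]
        have e2 : ‖br (((n : ℝ) + 1)⁻¹ • Y) (((n : ℝ) + 1)⁻¹ • Z)‖ =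
            ((n : ℝ) + 1)⁻¹ * (((n : ℝ) + 1)⁻¹ * ‖br Y Z‖) := by
          rw [map_smul, map_smul, smul_apply, norm_smul, norm_smul, norm_inv,
            Real.norm_of_nonneg hpos.le]
        rw [e2] at hU1
        calc ((n : ℝ) + 1) * ‖U - ((n : ℝ) + 1)⁻¹ • Y - ((n : ℝ) + 1)⁻¹ • Z‖
            ≤ ((n : ℝ) + 1) * (C * (((n : ℝ) + 1)⁻¹ * (((n : ℝ) + 1)⁻¹ * ‖br Y Z‖))) :=
              mul_le_mul_of_nonneg_left hU1 hpos.le
          _ = C * ‖br Y Z‖ * ((n : ℝ) + 1)⁻¹ := by field_simp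
      · have hfix : Φ U p = p := by
          rw [← hU2 p, hYZ]
        have := Pool.Agent.W32.LX.nsmul_fix h hfix (n + 1)
        push_cast at this
        exact this
    · exact ⟨0, fun hh => absurd hh hn⟩
  choose W hW using hex
  have hlim : Tendsto W atTop (𝓝 (Y + Z)) := by
    rw [tendsto_iff_norm_sub_tendsto_zero]
    refine squeeze_zero' (Eventually.of_forall fun n => norm_nonneg _)
      ((eventually_ge_atTop N).mono fun n hn => (hW n hn).1) ?_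
    have h1 : Tendsto (fun n : ℕ => ((n : ℝ) + 1)⁻¹) atTop (𝓝 0) :=
      tendsto_inv_atTop_zero.comp (tendsto_atTop_add_const_right _ _ tendsto_natCast_atTop_atTop)
    have h2 := h1.const_mul (C * ‖br Y Z‖)
    rwa [mul_zero] at h2
  have h1 : Tendsto (fun n => Φ (W n) p) atTop (𝓝 (Φ (Y + Z) p)) :=
    ((h.cont p).tendsto (Y + Z)).comp hlim
  have h2 : Tendsto (fun n => Φ (W n) p) atTop (𝓝 p) :=
    tendsto_const_nhds.congr' ((eventually_ge_atTop N).mono fun n hn => ((hW n hn).2).symm)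
  exact tendsto_nhds_unique h1 h2

/-! ### Conjugation of operators -/

section

variable {V H : Type} [NormedAddCommGroup V] [NormedSpace ℝ V] [NormedAddCommGroup H]
  [InnerProductSpace ℂ H]

/-- conjugation of an operator -/
noncomputable def cj (Φ : V → H →ₗᵢ[ℂ] H) (Y : V) (A : H →L[ℂ] H) : H →L[ℂ] H :=
  (Φ Y).toContinuousLinearMap ∘L A ∘L (Φ (-Y)).toContinuousLinearMap

omit [NormedSpace ℝ V] in
theorem cj_apply (Φ : V → H →ₗᵢ[ℂ] H) (Y : V) (A : H →L[ℂ] H) (x : H) :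
    cj Φ Y A x = Φ Y (A (Φ (-Y) x)) := rfl

variable {br : V →L[ℝ] V →L[ℝ] V} {Φ : V → H →ₗᵢ[ℂ] H}

theorem neg1 (h : Iso br (fun Y f => Φ Y f)) (Y : V) (x : H) : Φ (-Y) (Φ Y x) = x :=
  neg_act h Y x

theorem neg2 (h : Iso br (fun Y f => Φ Y f)) (Y : V) (x : H) : Φ Y (Φ (-Y) x) = x :=
  act_neg h Y x

theorem cj_two (h : Iso br (fun Y f => Φ Y f)) {Y Z U X : V}
    (e : ∀ g : H, Φ Y (Φ Z g) = Φ U (Φ X g)) (A : H →L[ℂ] H) :
    cj Φ Y (cj Φ Z A) = cj Φ U (cj Φ X A) := by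
  ext x
  rw [cj_apply, cj_apply, cj_apply, cj_apply]
  have hw : Φ (-Z) (Φ (-Y) x) = Φ (-X) (Φ (-U) x) := by
    set w := Φ (-Z) (Φ (-Y) x) with hw
    have hx : x = Φ Y (Φ Z w) := by rw [hw, neg2 h, neg2 h]
    rw [e] at hx
    rw [hx, neg1 h, neg1 h]
  rw [hw, e]

theorem cj_one (h : Iso br (fun Y f => Φ Y f)) {Y Z U : V}
    (e : ∀ g : H, Φ Y (Φ Z g) = Φ U g) (A : H →L[ℂ] H) :
    cj Φ Y (cj Φ Z A) = cj Φ U A := by
  ext x
  rw [cj_apply, cj_apply, cj_apply]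
  have hw : Φ (-Z) (Φ (-Y) x) = Φ (-U) x := by
    set w := Φ (-Z) (Φ (-Y) x) with hw
    have hx : x = Φ Y (Φ Z w) := by rw [hw, neg2 h, neg2 h]
    rw [e] at hx
    rw [hx, neg1 h]
  rw [hw, e]

theorem cj_zero (h : Iso br (fun Y f => Φ Y f)) (A : H →L[ℂ] H) : cj Φ 0 A = A := by
  ext x
  rw [cj_apply, neg_zero]
  have h0 : ∀ g : H, Φ 0 g = g := h.zero
  rw [h0, h0]

theorem cj_neg (h : Iso br (fun Y f => Φ Y f)) (Y : V) (A : H →L[ℂ] H) :
    cj Φ (-Y) (cj Φ Y A) = A := by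
  rw [cj_one h (U := 0) (fun g => ?_), cj_zero h]
  have h0 : ∀ g : H, Φ 0 g = g := h.zero
  rw [neg1 h, h0]

omit [NormedSpace ℝ V] in
theorem cj_le (Y : V) (A : H →L[ℂ] H) : ‖cj Φ Y A‖ ≤ ‖A‖ := by
  refine ContinuousLinearMap.opNorm_le_bound _ (norm_nonneg _) fun x => ?_
  rw [cj_apply, LinearIsometry.norm_map]
  refine (A.le_opNorm _).trans ?_
  rw [LinearIsometry.norm_map]

theorem cj_norm (h : Iso br (fun Y f => Φ Y f)) (Y : V) (A : H →L[ℂ] H) :
    ‖cj Φ Y A‖ = ‖A‖ := by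
  apply le_antisymm (cj_le Y A)
  calc ‖A‖ = ‖cj Φ (-Y) (cj Φ Y A)‖ := by rw [cj_neg h]
    _ ≤ ‖cj Φ Y A‖ := cj_le _ _

omit [NormedSpace ℝ V] in
theorem cj_sub (Y : V) (A B : H →L[ℂ] H) : cj Φ Y (A - B) = cj Φ Y A - cj Φ Y B := by
  ext x
  rw [cj_apply, sub_apply, map_sub, sub_apply, cj_apply,
    cj_apply]

theorem cj_dist (h : Iso br (fun Y f => Φ Y f)) (Y : V) (A B : H →L[ℂ] H) :
    dist (cj Φ Y A) (cj Φ Y B) = dist A B := by
  rw [dist_eq_norm, dist_eq_norm, ← cj_sub, cj_norm h]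

theorem cj_cont [FiniteDimensional ℝ V] (h : Iso br (fun Y f => Φ Y f)) {A : H →L[ℂ] H}
    (hA : Continuous fun Y => cj Φ Y A) (Z : V) : Continuous fun Y => cj Φ Y (cj Φ Z A) := by
  have e : (fun Y => cj Φ Y (cj Φ Z A)) =
      fun Y => cj Φ Z (cj Φ (NormedSpace.exp (br (-Z)) Y) A) := by
    funext Y
    apply cj_two h
    intro g
    have h1 := h.conj Z (NormedSpace.exp (br (-Z)) Y) g
    have h2 : NormedSpace.exp (br Z) (NormedSpace.exp (br (-Z)) Y) = Y := by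
      rw [map_neg]
      exact exp_inv (br Z) Y
    rw [h2] at h1
    exact h1.symm
  rw [e]
  have h3 : Continuous fun B : H →L[ℂ] H => cj Φ Z B := by
    have : Isometry fun B : H →L[ℂ] H => cj Φ Z B := Isometry.of_dist_eq (cj_dist h Z)
    exact this.continuous
  exact h3.comp (hA.comp (NormedSpace.exp (br (-Z))).continuous)

/-- the rank one operator of a vector -/
noncomputable def ro (f : H) : H →L[ℂ] H := (innerSL ℂ f).smulRight f

theorem ro_apply (f x : H) : ro f x = inner ℂ f x • f := rfl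

theorem ro_cont : Continuous fun f : H => ro f := by
  have h1 : Continuous fun f : H => ContinuousLinearMap.smulRightL ℂ H H (innerSL ℂ f) f := by
    fun_prop
  exact h1

theorem cj_ro (h : Iso br (fun Y f => Φ Y f)) (Y : V) (f : H) :
    cj Φ Y (ro f) = ro (Φ Y f) := by
  ext x
  rw [cj_apply, ro_apply, ro_apply, map_smul]
  congr 1
  rw [← LinearIsometry.inner_map_map (Φ Y) f (Φ (-Y) x), neg2 h]

end

theorem t_LIN : S_MAUT → S_SUB → S_LIN := by
  intro hM hS V H _ _ _ _ _ _ br Φ h f K hK hKf W hW hWn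
  by_cases hf : f = 0
  · subst hf
    refine ⟨⊤, fun _ _ _ => Submodule.mem_top, Submodule.mem_top, le_top, ?_⟩
    intro Y Z _ t
    exact map_zero _
  -- Part 1
  have h1 : Iso br (fun (Y : V) (p : {A : H →L[ℂ] H // Continuous fun Y => cj Φ Y A}) =>
      (⟨cj Φ Y p.1, cj_cont h p.2 Y⟩ : {A : H →L[ℂ] H // Continuous fun Y => cj Φ Y A})) := by
    refine ⟨?_, ?_, ?_, ?_, ?_, ?_, h.alt⟩
    · intro Y p q
      exact cj_dist h Y p.1 q.1
    · intro p
      exact Subtype.ext (cj_zero h p.1)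
    · intro Y s t p
      apply Subtype.ext
      exact (cj_one h (fun g => (h.line Y s t g).symm) p.1).symm
    · intro Y Z p
      apply Subtype.ext
      exact cj_two h (fun g => h.conj Y Z g) p.1
    · intro p
      exact Continuous.subtype_mk p.2 _
    · obtain ⟨C, ρ, hρ, hl⟩ := h.loc
      refine ⟨C, ρ, hρ, fun Y Z hY hZ => ?_⟩
      obtain ⟨U, hU1, hU2⟩ := hl Y Z hY hZ
      refine ⟨U, hU1, fun p => ?_⟩
      apply Subtype.ext
      exact cj_one h hU2 p.1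
  have hcf : Continuous fun Y => cj Φ Y (ro f) := by
    have e : (fun Y => cj Φ Y (ro f)) = fun Y => ro (Φ Y f) := by
      funext Y
      exact cj_ro h Y f
    rw [e]
    exact ro_cont.comp (h.cont f)
  obtain ⟨S, hSbr, hWS, hKS, hSf⟩ := hM V {A : H →L[ℂ] H // Continuous fun Y => cj Φ Y A} br _ h1
    ⟨ro f, hcf⟩ K hK (by
      intro Z hZ
      apply Subtype.ext
      show cj Φ Z (ro f) = ro f
      rw [cj_ro h, hKf Z hZ]) W (by
      intro t
      apply Subtype.ext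
      show cj Φ (t • W) (ro f) = ro f
      obtain ⟨c, hc, hcf⟩ := hW t
      rw [cj_ro h, hcf]
      ext x
      rw [ro_apply, ro_apply, inner_smul_left, smul_smul]
      congr 1
      rw [mul_right_comm, Complex.conj_mul', hc]
      simp) hWn
  -- phases
  have hph : ∀ Z ∈ S, ∃ c : ℂ, Φ Z f = c • f := by
    intro Z hZ
    have e : cj Φ Z (ro f) = ro f := congrArg Subtype.val (hSf Z hZ)
    rw [cj_ro h] at e
    have e2 := congrArg (fun A : H →L[ℂ] H => A f) e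
    simp only [ro_apply] at e2
    have hff : inner ℂ f f ≠ (0 : ℂ) := inner_self_ne_zero.2 hf
    have hne : inner ℂ (Φ Z f) f ≠ (0 : ℂ) := by
      intro h0
      rw [h0, zero_smul] at e2
      exact (smul_ne_zero hff hf) e2.symm
    refine ⟨(inner ℂ (Φ Z f) f)⁻¹ * inner ℂ f f, ?_⟩
    rw [mul_smul, ← e2, smul_smul, inv_mul_cancel₀ hne, one_smul]
  refine ⟨S, hSbr, hWS, hKS, ?_⟩
  -- Part 2
  obtain ⟨S₁, hS₁⟩ := hS V H br _ h f
  have hcont0 : Tendsto (fun Y => Φ Y f) (𝓝 0) (𝓝 f) := by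
    have h2 := (h.cont f).tendsto 0
    have h0 : Φ 0 f = f := h.zero f
    simp only [h0] at h2
    exact h2
  have hfn : 0 < ‖f‖ := norm_pos_iff.2 hf
  obtain ⟨δ, hδ, hδ2⟩ : ∃ δ > 0, ∀ Y : V, ‖Y‖ < δ → inner ℂ f (Φ Y f) ≠ (0 : ℂ) := by
    have h2 : Tendsto (fun Y => inner ℂ f (Φ Y f)) (𝓝 0) (𝓝 (inner ℂ f f)) :=
      (tendsto_const_nhds (x := f)).inner hcont0
    have h3 : ∀ᶠ Y in 𝓝 (0 : V), inner ℂ f (Φ Y f) ≠ (0 : ℂ) :=
      h2.eventually_ne (inner_self_ne_zero.2 hf)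
    obtain ⟨δ, hδ, h4⟩ := Metric.eventually_nhds_iff.1 h3
    refine ⟨δ, hδ, fun Y hY => h4 (by rwa [dist_zero_right])⟩
  have hexpS : ∀ Y : V, ∀ Z ∈ S, NormedSpace.exp (br Y) Z ∈ S := by
    intro Y Z hZ
    exact exp_mem (br Y) S (hSbr Y) Z hZ
  have key : ∀ Y : V, ‖Y‖ < δ → ∀ Z ∈ S, Φ (NormedSpace.exp (br (-Y)) Z) f = Φ Z f := by
    intro Y hY Z hZ
    obtain ⟨c, hc⟩ := hph Z hZ
    obtain ⟨c', hc'⟩ := hph _ (hexpS (-Y) Z hZ)
    have e1 : Φ Z (Φ Y f) = c' • Φ Y f := by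
      have h2 := h.conj Y (NormedSpace.exp (br (-Y)) Z) f
      have h3 : NormedSpace.exp (br Y) (NormedSpace.exp (br (-Y)) Z) = Z := by
        rw [map_neg]
        exact exp_inv (br Y) Z
      rw [h3] at h2
      have h2' : Φ Y (Φ (NormedSpace.exp (br (-Y)) Z) f) = Φ Z (Φ Y f) := h2
      rw [← h2', hc', map_smul]
    have e2 : inner ℂ (Φ Z f) (Φ Z (Φ Y f)) = inner ℂ f (Φ Y f) :=
      LinearIsometry.inner_map_map (Φ Z) _ _
    rw [hc, e1, inner_smul_left, inner_smul_right] at e2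
    have hcn : ‖c‖ = 1 := by
      have h4 : ‖Φ Z f‖ = ‖f‖ := LinearIsometry.norm_map _ _
      rw [hc, norm_smul] at h4
      have : ‖c‖ * ‖f‖ = 1 * ‖f‖ := by rw [h4, one_mul]
      exact mul_right_cancel₀ hfn.ne' this
    have e3 : (starRingEnd ℂ) c * c' = 1 := by
      have h5 := hδ2 Y hY
      have h6 : ((starRingEnd ℂ) c * c') * inner ℂ f (Φ Y f) = 1 * inner ℂ f (Φ Y f) := by
        rw [one_mul, mul_assoc]
        exact e2
      exact mul_right_cancel₀ h5 h6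
    have e4 : c' = c := by
      have h7 : c * (starRingEnd ℂ) c = 1 := by
        rw [mul_comm, Complex.conj_mul', hcn]
        simp
      calc c' = (c * (starRingEnd ℂ) c) * c' := by rw [h7, one_mul]
        _ = c * ((starRingEnd ℂ) c * c') := by ring
        _ = c := by rw [e3, mul_one]
    rw [hc', hc, e4]
  have key2 : ∀ Y : V, ‖Y‖ < δ → ∀ Z ∈ S, NormedSpace.exp (br (-Y)) Z - Z ∈ S₁ := by
    intro Y hY Z hZ
    show NormedSpace.exp (br (-Y)) Z - Z ∈ (S₁ : Set V)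
    rw [hS₁]
    intro t
    show Φ (t • (NormedSpace.exp (br (-Y)) Z - Z)) f = f
    have e : t • (NormedSpace.exp (br (-Y)) Z - Z) =
        NormedSpace.exp (br (-Y)) (t • Z) + (-(t • Z)) := by
      rw [map_smul, smul_sub, sub_eq_add_neg]
    rw [e]
    refine add_fix' h (p := f) (fun s => ?_)
    show Φ (s • NormedSpace.exp (br (-Y)) (t • Z)) (Φ (s • -(t • Z)) f) = f
    have hsZ : s • (t • Z) ∈ S := S.smul_mem _ (S.smul_mem _ hZ)
    have e2 : s • NormedSpace.exp (br (-Y)) (t • Z) = NormedSpace.exp (br (-Y)) (s • (t • Z)) :=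
      (map_smul (NormedSpace.exp (br (-Y))) s (t • Z)).symm
    have e3 : s • -(t • Z) = -(s • (t • Z)) := smul_neg _ _
    rw [e2, e3]
    obtain ⟨c, hc⟩ := hph _ (S.neg_mem hsZ)
    rw [hc, map_smul, key Y hY _ hsZ, ← map_smul, ← hc, neg2 h]
  have key3 : ∀ Y : V, ∀ Z ∈ S, br Y Z ∈ S₁ := by
    intro Y Z hZ
    have hd : HasDerivAt (fun s : ℝ => NormedSpace.exp (s • (br Y)) Z) (br Y Z) 0 := by
      have h2 : HasDerivAt (fun s : ℝ => NormedSpace.exp (s • (br Y)))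
          (NormedSpace.exp ((0 : ℝ) • (br Y)) * (br Y)) 0 :=
        hasDerivAt_exp_smul_const (𝕂 := ℝ) (br Y) 0
      rw [zero_smul, NormedSpace.exp_zero, one_mul] at h2
      have h3 := (ContinuousLinearMap.apply ℝ V Z).hasFDerivAt.comp_hasDerivAt (0 : ℝ) h2
      exact h3
    have hsl := hasDerivAt_iff_tendsto_slope.1 hd
    have hcl : IsClosed (S₁ : Set V) := S₁.closed_of_finiteDimensional
    refine hcl.mem_of_tendsto hsl ?_
    have hev : ∀ᶠ s : ℝ in 𝓝[≠] (0 : ℝ), ‖-(s • Y)‖ < δ := by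
      have h4 : Tendsto (fun s : ℝ => ‖-(s • Y)‖) (𝓝 0) (𝓝 0) := by
        have : Continuous fun s : ℝ => ‖-(s • Y)‖ := by fun_prop
        have h5 := this.tendsto 0
        simpa using h5
      exact (h4.mono_left nhdsWithin_le_nhds).eventually (gt_mem_nhds hδ)
    filter_upwards [hev] with s hs
    show slope (fun s : ℝ => NormedSpace.exp (s • (br Y)) Z) 0 s ∈ S₁
    rw [slope_def_module]
    apply S₁.smul_mem
    have h6 := key2 (-(s • Y)) hs Z hZ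
    rw [neg_neg, map_smul] at h6
    simpa using h6
  intro Y Z hZ t
  have h7 : br Y Z ∈ (S₁ : Set V) := key3 Y Z hZ
  rw [hS₁] at h7
  exact h7 t

end Pool.Agent.W403.LY
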